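import Mathlib
import Pool.Agent.H931Z.WtDefs
import Pool.Agent.H931Z.WtSys

set_option autoImplicit false
open Filter Topology MeasureTheory Pool.Agent.H931Z.Wt

namespace Pool.Agent.Results.MP_365e45_an.ADivergence

/-- There are an admissible weight `w` with the Fourier approximation condition and an invertible
measure-preserving system such that for all `p, q > 1` with `1/p + 1/q ≥ 1.998` (for example
`p = q = 1.001`) some `f ∈ L^p`, `g ∈ L^q` have averages `B_{w,N}(f,g)` that diverge almost
everywhere. -/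
theorem result :
    ∃ (w : ℤ → ℂ) (S : ℚ → ℂ) (M : ℕ → ℕ),
      UpperNormalized w ∧ MajorArc w S M ∧ FourierApprox w S M ∧
      ∃ (X : Type) (_ : MeasurableSpace X) (μ : Measure X) (T : X ≃ᵐ X),
        IsProbabilityMeasure μ ∧ MeasurePreserving T μ μ ∧
        ∀ p q : ℝ, 1 < p → 1 < q → 999 / 500 ≤ 1 / p + 1 / q →
          ∃ f g : X → ℂ, MemLp f (ENNReal.ofReal p) μ ∧ MemLp g (ENNReal.ofReal q) μ ∧
            ∀ᵐ x ∂μ, ¬ ∃ l : ℂ, Tendsto (fun N => bilin T w f g N x) atTop (𝓝 l) :=
  ⟨w0, S0, fun _ => 1, upper, major_arc, fourier_cond, X, inferInstance, μ0, T0, inferInstance,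
    pres_add 1, fun p q hp hq h => ⟨_, _, fn_memLp (by linarith), fn_memLp (by linarith),
      diverge (by linarith) (by linarith) h⟩⟩

end Pool.Agent.Results.MP_365e45_an.ADivergence
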